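import Pool.Agent.Helper82.NCMax

set_option autoImplicit false

open Set Topology
open Pool.Agent.Helper82.NC

namespace Pool.Agent.Results.MP_74c05d_an.Characterization

/-- Let `C` be a nonempty nearly convex subset of Euclidean `n`-space (any `n`). The following are
equivalent: `C` is the domain of the subdifferential of a proper lower semicontinuous convex
function; `C` is the range of such a subdifferential; `C` is the domain of a maximally monotone
set-valued map; `C` is the range of such a map; `C` is an `F_σ` set. -/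
theorem result (n : ℕ) (C : Set (EuclideanSpace ℝ (Fin n))) (hne : C.Nonempty)
    (hC : NearlyConvex C) :
    List.TFAE [
      ∃ f : EuclideanSpace ℝ (Fin n) → EReal,
        IsProperLscConvex f ∧ dom (subdifferential f) = C,
      ∃ f : EuclideanSpace ℝ (Fin n) → EReal,
        IsProperLscConvex f ∧ ran (subdifferential f) = C,
      ∃ A : EuclideanSpace ℝ (Fin n) → Set (EuclideanSpace ℝ (Fin n)),
        IsMaximallyMonotone A ∧ dom A = C,
      ∃ A : EuclideanSpace ℝ (Fin n) → Set (EuclideanSpace ℝ (Fin n)),
        IsMaximallyMonotone A ∧ ran A = C,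
      IsFsigma C] := by
  tfae_have 1 → 3 := by
    rintro ⟨f, hf, rfl⟩
    exact ⟨_, isMaximallyMonotone_subdifferential hf hne, rfl⟩
  tfae_have 3 → 5 := by
    rintro ⟨A, hA, rfl⟩
    exact isFsigma_dom hA
  tfae_have 5 → 1 := fun h => exists_dom_eq hne hC h
  tfae_have 1 → 2 := by
    rintro ⟨f, hf, rfl⟩
    exact ⟨conj f, isProperLscConvex_conj hf hne, ran_subdifferential_conj hf hne⟩
  tfae_have 2 → 4 := by
    rintro ⟨f, hf, rfl⟩
    obtain ⟨u, x, hu⟩ := hne
    exact ⟨_, isMaximallyMonotone_subdifferential hf ⟨x, u, hu⟩, rfl⟩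
  tfae_have 4 → 5 := by
    rintro ⟨A, hA, rfl⟩
    exact isFsigma_dom (isMaximallyMonotone_inv hA)
  tfae_finish

end Pool.Agent.Results.MP_74c05d_an.Characterization
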