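import Mathlib

set_option autoImplicit false

open Set Topology

namespace Pool.Agent.Results.MP_74c05d_an.NonFsigma

/-- A set `C` in Euclidean `n`-space is nearly convex if there is a convex set `D` with
`D ⊆ C ⊆ cl D`. -/
def NearlyConvex {n : ℕ} (C : Set (EuclideanSpace ℝ (Fin n))) : Prop :=
  ∃ D : Set (EuclideanSpace ℝ (Fin n)), Convex ℝ D ∧ D ⊆ C ∧ C ⊆ closure D

/-- `f` is a proper lower semicontinuous convex function on Euclidean `n`-space with values in
`(-∞, +∞]`: it never takes the value `-∞`, it is not identically `+∞`, it is lower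
semicontinuous, and its epigraph is convex. -/
structure IsProperLscConvex {n : ℕ} (f : EuclideanSpace ℝ (Fin n) → EReal) : Prop where
  ne_bot : ∀ x, f x ≠ ⊥
  exists_ne_top : ∃ x, f x ≠ ⊤
  lsc : LowerSemicontinuous f
  convex_epigraph : Convex ℝ {p : EuclideanSpace ℝ (Fin n) × ℝ | f p.1 ≤ (p.2 : EReal)}

/-- The subdifferential of `f`: `u ∈ ∂f(x)` iff `f(y) ≥ f(x) + ⟪u, y - x⟫` for all `y`. -/
def subdifferential {n : ℕ} (f : EuclideanSpace ℝ (Fin n) → EReal)
    (x : EuclideanSpace ℝ (Fin n)) : Set (EuclideanSpace ℝ (Fin n)) :=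
  {u | ∀ y, f x + ((inner ℝ u (y - x) : ℝ) : EReal) ≤ f y}

/-- The domain of a set-valued map: the points with nonempty image. -/
def dom {n : ℕ} (A : EuclideanSpace ℝ (Fin n) → Set (EuclideanSpace ℝ (Fin n))) :
    Set (EuclideanSpace ℝ (Fin n)) :=
  {x | (A x).Nonempty}

/-- The range of a set-valued map: the union of its images. -/
def ran {n : ℕ} (A : EuclideanSpace ℝ (Fin n) → Set (EuclideanSpace ℝ (Fin n))) :
    Set (EuclideanSpace ℝ (Fin n)) :=
  {u | ∃ x, u ∈ A x}

/-- A set-valued map is monotone if `⟪u - v, x - y⟫ ≥ 0` whenever `u ∈ A x` and `v ∈ A y`. -/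
def IsMonotone {n : ℕ} (A : EuclideanSpace ℝ (Fin n) → Set (EuclideanSpace ℝ (Fin n))) : Prop :=
  ∀ x y, ∀ u ∈ A x, ∀ v ∈ A y, 0 ≤ (inner ℝ (u - v) (x - y) : ℝ)

/-- A set-valued map is maximally monotone if it is monotone and its graph is not properly
contained in the graph of another monotone map. -/
def IsMaximallyMonotone {n : ℕ}
    (A : EuclideanSpace ℝ (Fin n) → Set (EuclideanSpace ℝ (Fin n))) : Prop :=
  IsMonotone A ∧ ∀ B : EuclideanSpace ℝ (Fin n) → Set (EuclideanSpace ℝ (Fin n)),
    IsMonotone B → (∀ x, A x ⊆ B x) → B = A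

/-- The irrational numbers of `[-1,1]` are not sigma-compact. -/
theorem not_isSigmaCompact_irrational :
    ¬ IsSigmaCompact {t : ℝ | Irrational t ∧ t ∈ Icc (-1 : ℝ) 1} := by
  rintro ⟨K, hK, hU⟩
  have h1 : ∀ j, IsMeagre (K j) := by
    intro j
    apply IsNowhereDense.isMeagre
    rw [(hK j).isClosed.isNowhereDense_iff]
    by_contra hne
    have hne' : (interior (K j)).Nonempty := nonempty_iff_ne_empty.mpr hne
    obtain ⟨q, hq⟩ := Rat.denseRange_cast (𝕜 := ℝ) |>.exists_mem_open isOpen_interior hne'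
    have h2 : (q : ℝ) ∈ {t : ℝ | Irrational t ∧ t ∈ Icc (-1 : ℝ) 1} := by
      rw [← hU]
      exact mem_iUnion.mpr ⟨j, interior_subset hq⟩
    exact Rat.not_irrational q h2.1
  have h3 : IsMeagre {t : ℝ | Irrational t ∧ t ∈ Icc (-1 : ℝ) 1} := by
    rw [← hU]; exact isMeagre_iUnion h1
  have h4 : IsMeagre {t : ℝ | ¬ Irrational t} := by
    have := eventually_residual_irrational
    unfold IsMeagre
    filter_upwards [this] with t ht
    simpa using ht
  have h5 : IsMeagre (Ioo (-1 : ℝ) 1) := by
    refine (h3.union h4).mono ?_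
    intro t ht
    by_cases hi : Irrational t
    · exact Or.inl ⟨hi, Ioo_subset_Icc_self ht⟩
    · exact Or.inr hi
  exact not_isMeagre_of_isOpen isOpen_Ioo ⟨0, by norm_num, by norm_num⟩ h5

/-- The domain of a set-valued map with closed graph is sigma-compact. -/
theorem isSigmaCompact_dom {n : ℕ}
    {A : EuclideanSpace ℝ (Fin n) → Set (EuclideanSpace ℝ (Fin n))}
    (hA : IsClosed {p : EuclideanSpace ℝ (Fin n) × EuclideanSpace ℝ (Fin n) | p.2 ∈ A p.1}) :
    IsSigmaCompact (dom A) := by
  have h : dom A = Prod.fst ''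
      {p : EuclideanSpace ℝ (Fin n) × EuclideanSpace ℝ (Fin n) | p.2 ∈ A p.1} := by
    ext x
    simp only [dom, Set.Nonempty, mem_ofPred_eq, mem_image, Prod.exists, exists_and_right,
      exists_eq_right]
  rw [h]
  exact (isSigmaCompact_univ.of_isClosed_subset hA (subset_univ _)).image continuous_fst

/-- The range of a set-valued map with closed graph is sigma-compact. -/
theorem isSigmaCompact_ran {n : ℕ}
    {A : EuclideanSpace ℝ (Fin n) → Set (EuclideanSpace ℝ (Fin n))}
    (hA : IsClosed {p : EuclideanSpace ℝ (Fin n) × EuclideanSpace ℝ (Fin n) | p.2 ∈ A p.1}) :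
    IsSigmaCompact (ran A) := by
  have h : ran A = Prod.snd ''
      {p : EuclideanSpace ℝ (Fin n) × EuclideanSpace ℝ (Fin n) | p.2 ∈ A p.1} := by
    ext x
    simp [ran]
  rw [h]
  exact (isSigmaCompact_univ.of_isClosed_subset hA (subset_univ _)).image continuous_snd

/-- The graph of a maximally monotone map is closed. -/
theorem isClosed_graph_of_isMaximallyMonotone {n : ℕ}
    {A : EuclideanSpace ℝ (Fin n) → Set (EuclideanSpace ℝ (Fin n))}
    (hA : IsMaximallyMonotone A) :
    IsClosed {p : EuclideanSpace ℝ (Fin n) × EuclideanSpace ℝ (Fin n) | p.2 ∈ A p.1} := by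
  have h : {p : EuclideanSpace ℝ (Fin n) × EuclideanSpace ℝ (Fin n) | p.2 ∈ A p.1} =
      ⋂ (q : EuclideanSpace ℝ (Fin n) × EuclideanSpace ℝ (Fin n)) (_ : q.2 ∈ A q.1),
        {p : EuclideanSpace ℝ (Fin n) × EuclideanSpace ℝ (Fin n) |
          0 ≤ (inner ℝ (p.2 - q.2) (p.1 - q.1) : ℝ)} := by
    ext p
    simp only [mem_ofPred_eq, mem_iInter]
    constructor
    · intro hp q hq
      exact hA.1 p.1 q.1 p.2 hp q.2 hq
    · intro hp
      let B : EuclideanSpace ℝ (Fin n) → Set (EuclideanSpace ℝ (Fin n)) :=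
        fun x => {u | u ∈ A x ∨ (x = p.1 ∧ u = p.2)}
      have hB : IsMonotone B := by
        intro x y u hu v hv
        rcases hu with hu | ⟨rfl, rfl⟩
        · rcases hv with hv | ⟨rfl, rfl⟩
          · exact hA.1 x y u hu v hv
          · have h := hp (x, u) hu
            have e : (inner ℝ (u - p.2) (x - p.1) : ℝ) = inner ℝ (p.2 - u) (p.1 - x) := by
              rw [← neg_sub p.2 u, ← neg_sub p.1 x, inner_neg_neg]
            rw [e]; exact h
        · rcases hv with hv | ⟨rfl, rfl⟩
          · exact hp (y, v) hv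
          · simp
      have hBA : B = A := hA.2 B hB (fun x u hu => Or.inl hu)
      have h1 : p.2 ∈ B p.1 := Or.inr ⟨rfl, rfl⟩
      rw [hBA] at h1
      exact h1
  rw [h]
  refine isClosed_iInter fun q => isClosed_iInter fun _ => ?_
  exact isClosed_le continuous_const
    ((continuous_snd.sub continuous_const).inner (continuous_fst.sub continuous_const))

/-- The graph of the subdifferential of a lower semicontinuous function is closed. -/
theorem isClosed_graph_subdifferential {n : ℕ} {f : EuclideanSpace ℝ (Fin n) → EReal}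
    (hf : LowerSemicontinuous f) :
    IsClosed {p : EuclideanSpace ℝ (Fin n) × EuclideanSpace ℝ (Fin n) |
      p.2 ∈ subdifferential f p.1} := by
  have h : {p : EuclideanSpace ℝ (Fin n) × EuclideanSpace ℝ (Fin n) |
      p.2 ∈ subdifferential f p.1} =
      ⋂ (y : EuclideanSpace ℝ (Fin n)),
        {p : EuclideanSpace ℝ (Fin n) × EuclideanSpace ℝ (Fin n) |
          f p.1 + ((inner ℝ p.2 (y - p.1) : ℝ) : EReal) ≤ f y} := by
    ext p
    simp [subdifferential]
  rw [h]
  refine isClosed_iInter fun y => ?_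
  have e : {p : EuclideanSpace ℝ (Fin n) × EuclideanSpace ℝ (Fin n) |
          f p.1 + ((inner ℝ p.2 (y - p.1) : ℝ) : EReal) ≤ f y} =
      (fun p : EuclideanSpace ℝ (Fin n) × EuclideanSpace ℝ (Fin n) =>
        (p.1, f y + ((-(inner ℝ p.2 (y - p.1)) : ℝ) : EReal))) ⁻¹'
        {q : EuclideanSpace ℝ (Fin n) × EReal | f q.1 ≤ q.2} := by
    ext p
    simp only [mem_ofPred_eq, mem_preimage]
    generalize (inner ℝ p.2 (y - p.1) : ℝ) = t
    generalize f p.1 = a
    generalize f y = b
    rw [EReal.coe_neg, ← sub_eq_add_neg]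
    exact (EReal.le_sub_iff_add_le (Or.inl (EReal.coe_ne_bot t)) (Or.inl (EReal.coe_ne_top t))).symm
  rw [e]
  refine hf.isClosed_epigraph.preimage ?_
  refine continuous_fst.prodMk ?_
  have hc : Continuous (fun p : EuclideanSpace ℝ (Fin n) × EuclideanSpace ℝ (Fin n) =>
      ((-(inner ℝ p.2 (y - p.1)) : ℝ) : EReal)) :=
    continuous_coe_real_ereal.comp
      ((continuous_snd.inner (continuous_const.sub continuous_fst)).neg)
  rw [continuous_iff_continuousAt]
  intro p
  have h2 : ContinuousAt (fun q : EReal × EReal => q.1 + q.2)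
      (f y, ((-(inner ℝ p.2 (y - p.1)) : ℝ) : EReal)) :=
    EReal.continuousAt_add (Or.inr (EReal.coe_ne_bot _)) (Or.inr (EReal.coe_ne_top _))
  exact ContinuousAt.comp (f := fun p : EuclideanSpace ℝ (Fin n) × EuclideanSpace ℝ (Fin n) =>
      (f y, ((-(inner ℝ p.2 (y - p.1)) : ℝ) : EReal))) h2
      (continuousAt_const.prodMk hc.continuousAt)

/-- The counterexample: the open unit ball together with the points of the unit sphere whose
first coordinate is irrational. -/
def badSet (n : ℕ) (i : Fin n) : Set (EuclideanSpace ℝ (Fin n)) :=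
  Metric.ball 0 1 ∪ {x | x ∈ Metric.sphere (0 : EuclideanSpace ℝ (Fin n)) 1 ∧ Irrational (x i)}

theorem convex_badSet (n : ℕ) (i : Fin n) : Convex ℝ (badSet n i) := by
  have hsub : badSet n i ⊆ Metric.closedBall 0 1 := by
    rintro x (hx | hx)
    · exact Metric.ball_subset_closedBall hx
    · exact Metric.sphere_subset_closedBall hx.1
  rw [convex_iff_pairwise_pos]
  intro x hx y hy hxy a b ha hb hab
  left
  have h := strictConvex_closedBall ℝ (0 : EuclideanSpace ℝ (Fin n)) 1 (hsub hx) (hsub hy) hxy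
    ha hb hab
  rwa [interior_closedBall _ one_ne_zero] at h

theorem not_isSigmaCompact_badSet (n : ℕ) (i j : Fin n) (hij : i ≠ j) :
    ¬ IsSigmaCompact (badSet n i) := by
  intro hC
  have h1 : IsSigmaCompact (badSet n i ∩ Metric.sphere (0 : EuclideanSpace ℝ (Fin n)) 1) := by
    obtain ⟨K, hK, hU⟩ := hC
    refine ⟨fun k => K k ∩ Metric.sphere (0 : EuclideanSpace ℝ (Fin n)) 1,
      fun k => (hK k).inter_right Metric.isClosed_sphere, ?_⟩
    rw [← hU, iUnion_inter]
  have h2 := h1.image (f := fun x : EuclideanSpace ℝ (Fin n) => x i) (by fun_prop)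
  apply not_isSigmaCompact_irrational
  convert h2 using 1
  ext t
  simp only [mem_ofPred_eq, mem_image, mem_inter_iff]
  constructor
  · rintro ⟨hirr, ht⟩
    let x : EuclideanSpace ℝ (Fin n) :=
      EuclideanSpace.single i t + EuclideanSpace.single j (Real.sqrt (1 - t ^ 2))
    have hxi : x i = t := by
      simp [x, hij]
    have ht2 : 0 ≤ 1 - t ^ 2 := by nlinarith [ht.1, ht.2]
    have hnorm : ‖x‖ = 1 := by
      have hsq : ‖x‖ ^ 2 = 1 := by
        rw [← real_inner_self_eq_norm_sq]
        simp only [x, inner_add_left, inner_add_right, EuclideanSpace.inner_single_left]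
        simp [hij, hij.symm]
        rw [Real.mul_self_sqrt ht2]
        ring
      nlinarith [norm_nonneg x]
    have hxs : x ∈ Metric.sphere (0 : EuclideanSpace ℝ (Fin n)) 1 := by
      simpa using hnorm
    exact ⟨x, ⟨Or.inr ⟨hxs, by rw [hxi]; exact hirr⟩, hxs⟩, hxi⟩
  · rintro ⟨x, ⟨hx, hxs⟩, rfl⟩
    have hxn : ‖x‖ = 1 := by simpa using hxs
    have hle : |x i| ≤ 1 := by
      have := PiLp.norm_apply_le x i
      rw [hxn] at this
      simpa using this
    rcases hx with hx | hx
    · exfalso
      have : ‖x‖ < 1 := by simpa using hx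
      linarith
    · exact ⟨hx.2, abs_le.mp hle⟩

/-- For every `n ≥ 2` there is a nonempty nearly convex (even convex) subset of Euclidean
`n`-space which is neither the domain nor the range of the subdifferential of a proper lower
semicontinuous convex function, and neither the domain nor the range of a maximally monotone
operator. -/
theorem result (n : ℕ) (hn : 2 ≤ n) :
    ∃ C : Set (EuclideanSpace ℝ (Fin n)), C.Nonempty ∧ Convex ℝ C ∧ NearlyConvex C ∧
      (∀ f : EuclideanSpace ℝ (Fin n) → EReal, IsProperLscConvex f →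
        dom (subdifferential f) ≠ C ∧ ran (subdifferential f) ≠ C) ∧
      (∀ A : EuclideanSpace ℝ (Fin n) → Set (EuclideanSpace ℝ (Fin n)),
        IsMaximallyMonotone A → dom A ≠ C ∧ ran A ≠ C) := by
  let i : Fin n := ⟨0, by omega⟩
  let j : Fin n := ⟨1, by omega⟩
  have hij : i ≠ j := by simp [i, j]
  have hns := not_isSigmaCompact_badSet n i j hij
  refine ⟨badSet n i, ⟨0, Or.inl (by simp)⟩, convex_badSet n i,
    ⟨badSet n i, convex_badSet n i, subset_rfl, subset_closure⟩, ?_, ?_⟩
  · intro f hf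
    have hcl := isClosed_graph_subdifferential hf.lsc
    refine ⟨fun h => hns ?_, fun h => hns ?_⟩
    · rw [← h]; exact isSigmaCompact_dom hcl
    · rw [← h]; exact isSigmaCompact_ran hcl
  · intro A hA
    have hcl := isClosed_graph_of_isMaximallyMonotone hA
    refine ⟨fun h => hns ?_, fun h => hns ?_⟩
    · rw [← h]; exact isSigmaCompact_dom hcl
    · rw [← h]; exact isSigmaCompact_ran hcl

end Pool.Agent.Results.MP_74c05d_an.NonFsigma
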